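import Pool.Agent.Q241.NN.H

/-!
# The nearest neighbour law of the zeta zeros and the pairs of zeros that are not neighbours

Assume the Riemann hypothesis.  `δ r n` is the normalised distance of the `n`-th ordinate and the
`r`-th following one, so that `δ 1 n = δ_n`.  The theorem is stated for a finite set `R` of positive
integers; the case of the problem is `R = {1}`.

(1) For a density `p` of total mass `|R|`: the `r`-th neighbour spacings, `r ∈ R`, together have the
density `p` (for `R = {1}` and the Gaudin density `p` this is Q1) if and only if the sums of test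
functions over the pairs of zeros `γ_n, γ_m` with `m - n ∉ R` have the expected limits, for test
functions with frequencies in `(-κ, κ)`, where `κ > 0` is arbitrarily small.
(2) The limit law of these spacings exists if and only if these sums have limits.
(3) If the `r`-th neighbour spacings have limit laws for all `r ∉ R`, then the spacings with `r ∈ R`
have a limit law, which is a function of the others; it is the expected one if the others are.

Idea of the proof.  By Montgomery's theorem the sums over all pairs have known limits at low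
frequencies.  So two possible limits of the counting function of the neighbours in `R` have a
difference `E` which is orthogonal to the derivatives of the band limited functions.  Hence `x E(x)`
is orthogonal to the band limited functions: `K'(α) / α` is smooth for even smooth `K`.  The tails
of the laws of the spacings are exponentially small (starting files), so that the Fourier transform
of `x E(x)` is analytic, and it vanishes near `0`.  One-sided bounds suffice for this, so that
nothing is assumed about the tail of `p`.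
-/

open Filter Topology MeasureTheory Set

namespace Pool.Agent.Results.MP_21f43f_nt.FurtherNeighbours

/-- multiplicity of `s` as a zero of the Riemann zeta function (order of vanishing at `s`) -/
noncomputable def zmult (s : ℂ) : ℕ := analyticOrderNatAt riemannZeta s

/-- the number of nontrivial zeros of `ζ` with ordinate in `(0, t]`, with multiplicity -/
noncomputable def N (t : ℝ) : ℕ :=
  ∑ᶠ s ∈ {s : ℂ | riemannZeta s = 0 ∧ 0 < s.re ∧ s.re < 1 ∧ 0 < s.im ∧ s.im ≤ t}, zmult s

/-- for `n ≥ 1`: the `n`-th positive ordinate `γ n` of a nontrivial zero of `ζ`, the ordinates being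
listed in nondecreasing order and repeated according to multiplicity -/
noncomputable def γ (n : ℕ) : ℝ := sInf {t : ℝ | n ≤ N t}

/-- the normalised distance `(γ_{n+r} log γ_{n+r} - γ_n log γ_n) / 2π` of the `n`-th ordinate and its
`r`-th neighbour; `δ 1 n` is the normalised gap `δ_n` -/
noncomputable def δ (r n : ℕ) : ℝ :=
  (γ (n + r) * Real.log (γ (n + r)) - γ n * Real.log (γ n)) / (2 * Real.pi)

/-- the proportion of the `n ≤ M` with `a < δ r n ≤ b` -/
noncomputable def prop (r M : ℕ) (a b : ℝ) : ℝ :=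
  ({n : ℕ | 1 ≤ n ∧ n ≤ M ∧ a < δ r n ∧ δ r n ≤ b}.ncard : ℝ) / M

/-- the distribution function of the spacings `δ r n`, `n ≤ M` -/
noncomputable def law (r M : ℕ) (s : ℝ) : ℝ := ({n : ℕ | 1 ≤ n ∧ n ≤ M ∧ δ r n ≤ s}.ncard : ℝ) / M

/-- the sum of `f((γ_{n+r} - γ_n) log T / 2π)` over the pairs of zeros up to height `T` whose index
difference `r` is not in `R`, divided by `(T / 2π) log T` -/
noncomputable def far (R : Finset ℕ) (f : ℝ → ℝ) (T : ℝ) : ℝ :=
  (∑ r ∈ Finset.Ico 1 (N T) \ R, ∑ n ∈ Finset.Ioc 0 (N T - r),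
    f ((γ (n + r) - γ n) * Real.log T / (2 * Real.pi))) / (T * Real.log T / (2 * Real.pi))

/-- test functions with frequencies in `[-κ, κ]`: `f(y)` is the integral over `[y - h, y + h]` of the
Fourier transform of an even smooth function `K` that vanishes outside `[-κ, κ]` -/
def Test (κ : ℝ) (f : ℝ → ℝ) : Prop := ∃ (K : ℝ → ℝ) (h : ℝ), 0 < h ∧
  ContDiff ℝ (⊤ : ℕ∞) K ∧ (∀ x, K (-x) = K x) ∧ (∀ x, κ < |x| → K x = 0) ∧
  ∀ y, f y = ∫ u in (y - h)..(y + h), ∫ α, K α * Real.cos (2 * Real.pi * u * α)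

/-- `D M s → H s` along `l` at every `s > 0` where `H` is continuous -/
def Conv (l : Filter ℕ) (D : ℕ → ℝ → ℝ) (H : ℝ → ℝ) : Prop :=
  ∀ s : ℝ, 0 < s → ContinuousAt H s → Tendsto (fun M => D M s) l (𝓝 (H s))

/-- the pair correlation function -/
noncomputable def F (u : ℝ) : ℝ := 1 - (Real.sin (Real.pi * u) / (Real.pi * u)) ^ 2

lemma law_eq (r M : ℕ) (s : ℝ) : law r M s = Q241.NN.Dr r M s := by
  classical
  unfold law Q241.NN.Dr
  congr 2
  rw [← Set.ncard_coe_finset]
  congr 1
  ext n
  rw [Finset.mem_coe, Finset.mem_filter, Finset.mem_Ioc]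
  constructor
  · rintro ⟨h1, h2, h3⟩
    exact ⟨⟨h1, h2⟩, h3⟩
  · rintro ⟨⟨h1, h2⟩, h3⟩
    exact ⟨h1, h2, h3⟩

lemma prop_eq (r M : ℕ) (a b : ℝ) : prop r M a b = Q241.NN.Dab r M a b := by
  classical
  unfold prop Q241.NN.Dab
  congr 2
  rw [← Set.ncard_coe_finset]
  congr 1
  ext n
  rw [Finset.mem_coe, Finset.mem_filter, Finset.mem_Ioc]
  constructor
  · rintro ⟨h1, h2, h3⟩
    exact ⟨⟨h1, h2⟩, h3⟩
  · rintro ⟨⟨h1, h2⟩, h3⟩
    exact ⟨h1, h2, h3⟩

lemma far_eq (R : Finset ℕ) (f : ℝ → ℝ) : far R f = Q241.NN.SFar R f := rfl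

lemma Test_iff (κ : ℝ) (f : ℝ → ℝ) : Test κ f ↔ Q241.NN.TF κ f := by
  constructor
  · rintro ⟨K, h, h1, h2, h3, h4, h5⟩
    exact ⟨K, h, ⟨h2, h3, h4⟩, h1, funext h5⟩
  · rintro ⟨K, h, ⟨h2, h3, h4⟩, h1, h5⟩
    exact ⟨K, h, h1, h2, h3, h4, congrFun h5⟩

lemma gp_eq (s : ℝ) : ∫ x in (0 : ℝ)..s, F x = Pool.Agent.Y744.gp s := by
  unfold Pool.Agent.Y744.gp
  refine intervalIntegral.integral_congr_ae ?_
  have hne : ∀ᵐ x : ℝ, x ≠ 0 := by
    rw [ae_iff]
    simp
  filter_upwards [hne] with x hx _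
  have hpi := Real.pi_pos
  unfold F Pool.Agent.Y744.gd
  rw [Real.sinc_of_ne_zero (by positivity)]

/-- **Theorem.**  See the description above. -/
theorem result (RH : RiemannHypothesis) (R : Finset ℕ) (hR : ∀ r ∈ R, 1 ≤ r) :
    (∀ κ : ℝ, 0 < κ → κ < 1 →
      (∀ p : ℝ → ℝ, (∀ x, 0 ≤ p x) → IntegrableOn p (Ioi 0) → ∫ x in Ioi 0, p x = R.card →
        ((∀ a b : ℝ, 0 ≤ a → a < b →
          Tendsto (fun M => ∑ r ∈ R, prop r M a b) atTop (𝓝 (∫ x in a..b, p x))) ↔
        ∀ f, Test κ f →
          Tendsto (far R f) atTop (𝓝 (∫ x in Ioi (0 : ℝ), f x * (F x - p x))))) ∧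
      ((∃ H : ℝ → ℝ, Monotone H ∧ Conv atTop (fun M s => ∑ r ∈ R, law r M s) H) ↔
        ∀ f, Test κ f → ∃ L, Tendsto (far R f) atTop (𝓝 L))) ∧
    (∀ G : ℕ → ℝ → ℝ, (∀ r, Monotone (G r)) →
      (∃ H : ℝ → ℝ, Monotone H ∧ ∀ l : Filter ℕ, l ≤ atTop →
        (∀ r, 1 ≤ r → r ∉ R → Conv l (law r) (G r)) →
          Conv l (fun M s => ∑ r ∈ R, law r M s) H) ∧
      ((∀ r ∈ R, ∀ s, 0 < s → G r s ≤ 1) →
        (∀ s, 0 < s → HasSum (fun r => G (r + 1) s) (∫ x in (0 : ℝ)..s, F x)) →
        ∀ l : Filter ℕ, l ≤ atTop → (∀ r, 1 ≤ r → r ∉ R → Conv l (law r) (G r)) →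
          Conv l (fun M s => ∑ r ∈ R, law r M s) (fun s => ∑ r ∈ R, G r s))) := by
  have e1 : law = Q241.NN.Dr := funext fun r => funext fun M => funext fun s => law_eq r M s
  have e2 : prop = Q241.NN.Dab := funext fun r => funext fun M => funext fun a => funext fun b =>
    prop_eq r M a b
  refine ⟨fun κ hκ hκ1 => ⟨fun p hp hi hm => ?_, ?_⟩, fun G hG => ⟨?_, fun hle hsum l hl hc => ?_⟩⟩
  · rw [e2, Q241.NN.main1 RH hκ hκ1 hR hp hi hm]
    exact forall_congr' fun f => by rw [Test_iff]; rfl
  · rw [e1]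
    refine (Q241.NN.exist_iff RH hκ hκ1 hR).trans ?_
    exact forall_congr' fun f => by rw [Test_iff]; rfl
  · rw [e1]
    exact Q241.NN.exist RH hR hG
  · rw [e1] at hc ⊢
    simp_rw [gp_eq] at hsum
    exact Q241.NN.ident RH hR hG hle hsum hl hc

end Pool.Agent.Results.MP_21f43f_nt.FurtherNeighbours
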