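import Pool.Agent.Q63.LG.Fi

/-!
# Long zero-free stretches of the critical line in every window of length `T ^ ε`

No hypothesis is assumed.  Let `κ(ε) = 1 - 2 ε + (4/3) ε²`, so that `κ(ε) ^ (-1/2) > 1` for
`0 < ε ≤ 1/2` (it is `√3` for `ε = 1/2` and `1 + ε + O(ε²)` for small `ε`).  In every window of
length at least `T ^ ε` at height `T` the second moment of `ζ` on the critical line has the lower
bound `(2 ε - η) log T` times the length, the heights lying between two zeros at distance at most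
`l` times the average gap carry at most the proportion `κ(ε) l² + η` of it, and every interval
`[T, T + T ^ ε]` contains a zero-free stretch longer than `κ(ε) ^ (-1/2) - η` times the average gap.
-/

set_option autoImplicit false

open MeasureTheory Filter Topology Set

namespace Pool.Agent.Results.MP_21f43f_nt.LongGapsEverywhere

/-- The point `1/2 + it`. -/
noncomputable def pt (t : ℝ) : ℂ := 1 / 2 + t * Complex.I

/-- The Gaussian window with centre `T` and width `U`. -/
noncomputable def w (T U t : ℝ) : ℝ := Real.exp (-((t - T) / U) ^ 2)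

/-- The second moment of `ζ` on the critical line in the window. -/
noncomputable def J (T U : ℝ) : ℝ := ∫ t : ℝ, ‖riemannZeta (pt t)‖ ^ 2 * w T U t

/-- The heights between two zeros on the critical line at distance at most `r`. -/
def shortGaps (r : ℝ) : Set ℝ := {t | ∃ γ γ' : ℝ, riemannZeta (pt γ) = 0 ∧
  riemannZeta (pt γ') = 0 ∧ γ ≤ t ∧ t ≤ γ' ∧ γ' - γ ≤ r}

/-- The constant `κ(ε)`. -/
noncomputable def kap (ε : ℝ) : ℝ := 1 - 2 * ε + 4 / 3 * ε ^ 2

/-- Let `0 < ε ≤ 1/2` and `η > 0`.  For all large `T`: for every width `T ^ ε ≤ U ≤ T / log T`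
the second moment `J T U` is at least `(2 ε - η) √π U log T`, and for every `l ≥ 0` the heights
between two zeros at distance at most `l` times the average gap `2π / log T` contribute at most
`(κ(ε) l² + η) J T U`; and there is a stretch of the critical line of length at least
`κ(ε) ^ (-1/2) - η` times the average gap, inside `[T, T + T ^ ε]`, without zeros of `ζ`. -/
theorem result (ε : ℝ) (hε : 0 < ε) (hε1 : ε ≤ 1 / 2) (η : ℝ) (hη : 0 < η) :
    ∃ T₀ : ℝ, ∀ T : ℝ, T₀ ≤ T →
      (∀ U : ℝ, T ^ ε ≤ U → U ≤ T / Real.log T →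
        (2 * ε - η) * (Real.sqrt Real.pi * U * Real.log T) ≤ J T U ∧
        ∀ l : ℝ, 0 ≤ l → (∫ t in shortGaps (l * (2 * Real.pi / Real.log T)),
          ‖riemannZeta (pt t)‖ ^ 2 * w T U t) ≤ (kap ε * l ^ 2 + η) * J T U) ∧
      ∃ a : ℝ, T ≤ a ∧
        a + (1 / Real.sqrt (kap ε) - η) * (2 * Real.pi / Real.log T) ≤ T + T ^ ε ∧
        ∀ t : ℝ, a < t → t < a + (1 / Real.sqrt (kap ε) - η) * (2 * Real.pi / Real.log T) →
          riemannZeta (pt t) ≠ 0 := by
  have e : ∀ t : ℝ, ((1 / 2 : ℝ) : ℂ) + t * Complex.I = pt t := by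
    intro t; unfold pt; push_cast; ring
  have e1 : ∀ t : ℝ, (1 / 2 + Complex.I * t : ℂ) = pt t := by
    intro t; unfold pt; ring
  have ek : Q63.LG.kap ε = kap ε := rfl
  obtain ⟨hk1, hk2⟩ := Q63.LG.kap_bounds hε.le hε1
  rw [ek] at hk1 hk2
  have hk0 : 0 < kap ε := by linarith
  have hsq : 0 < Real.sqrt (kap ε) := Real.sqrt_pos.2 hk0
  set l0 := max 0 (1 / Real.sqrt (kap ε) - η) with hl0
  have hl00 : 0 ≤ l0 := le_max_left _ _
  have hl01 : 1 / Real.sqrt (kap ε) - η ≤ l0 := le_max_right _ _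
  have hl0k : Q63.LG.kap ε * l0 ^ 2 < 1 := by
    rw [ek]
    have h1 : l0 < 1 / Real.sqrt (kap ε) := max_lt (by positivity) (by linarith)
    have h2 : l0 ^ 2 < (1 / Real.sqrt (kap ε)) ^ 2 := pow_lt_pow_left₀ h1 hl00 (by norm_num)
    rw [div_pow, one_pow, Real.sq_sqrt hk0.le, lt_div_iff₀ hk0] at h2
    linarith
  obtain ⟨T₁, hT₁⟩ := eventually_atTop.mp (Q63.LG.mass hε hε1 hη)
  obtain ⟨T₂, hT₂⟩ := eventually_atTop.mp (Q63.LG.gap hε hε1 hl00 hl0k)
  refine ⟨max (max T₁ T₂) 3, fun T hT => ⟨fun U hU1 hU2 => ?_, ?_⟩⟩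
  · have hT1 : T₁ ≤ T := (le_max_left _ _).trans ((le_max_left _ _).trans hT)
    have hT3 : 3 ≤ T := (le_max_right _ _).trans hT
    have hA : Q97.MM.Adm T U :=
      ⟨hT3, (Real.one_le_rpow (by linarith) hε.le).trans hU1, hU2⟩
    obtain ⟨k1, k2⟩ := hT₁ T hT1 U hA hU1
    have eJ : Q97.MM.JJ 1 T U (1 / 2) = J T U := by
      unfold J Q97.MM.JJ
      congr 1
      funext t
      rw [e]
      rfl
    have eS : ∀ r : ℝ, Q63.RZ.ShortG r = shortGaps r := by
      intro r
      unfold Q63.RZ.ShortG shortGaps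
      simp only [e1]
    have ew : Q97.MM.wt T U = w T U := rfl
    rw [eJ] at k1
    refine ⟨k1, fun l hl => ?_⟩
    have k3 := k2 l hl
    rw [eJ, eS, ew, ek] at k3
    simp only [e] at k3
    exact k3
  · have hT2 : T₂ ≤ T := (le_max_right _ _).trans ((le_max_left _ _).trans hT)
    have hT3 : 3 ≤ T := (le_max_right _ _).trans hT
    obtain ⟨a, h1, h2, h3⟩ := hT₂ T hT2
    have hL : 0 < Real.log T := Real.log_pos (by linarith)
    have h4 : (1 / Real.sqrt (kap ε) - η) * (2 * Real.pi / Real.log T) ≤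
        l0 * (2 * Real.pi / Real.log T) :=
      mul_le_mul_of_nonneg_right hl01 (by positivity)
    refine ⟨a, h1, by linarith, fun t ht1 ht2 => ?_⟩
    have := h3 t ht1 (by linarith)
    rw [e1] at this
    exact this

end Pool.Agent.Results.MP_21f43f_nt.LongGapsEverywhere
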