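import Pool.Agent.Q260.AH.Fin
import Pool.Agent.Q285.AH.EL
import Pool.Agent.Q285.AH.GB
import Pool.Agent.Q285.AH.UPP
import Pool.Agent.Q38.AH.LOW
import Pool.Agent.Q252.AH.BL
import Pool.Agent.Q252.AH.WP
import Pool.Agent.Q252.AH.SX
import Pool.Agent.Q252.AH.TK
import Pool.Agent.Q177.AH.XS
import Pool.Agent.Q154.AH.WA
import Pool.Agent.Q224.AH.KD
import Pool.Agent.Q224.AH.SC
import Pool.Agent.Q224.AH.CR
import Pool.Agent.Q96.AH.RS
import Pool.Agent.Q296.GM.Rh
import Pool.Agent.Q260.AH.Pc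
import Pool.Agent.H177R3.LatE

/-!
# Primes in short intervals and lattices of zeta zero spacings

Assume the Riemann hypothesis. For `R > 1` let
`W(R, T) = (T / log² T) ∫_1^{T^R} (R - log x / log T) (ψ(x + x/T) - ψ(x) - x/T)² dx / x²`,
a weighted variance of the primes in the intervals `(x, x + x/T]`, `x ≤ T^R`; no zeros of `ζ` occur in it.

(1) `W(R, T) ≥ R (R - 1) / 2 - o(1)`. (2) Along every filter finer than `T → ∞` (for instance a sequence), the value
`R (R - 1) / 2` is taken in the limit only if almost all the normalised gaps `δ_n` are near the numbers `k / R`, `k ≥ 1`.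
(3) For `T → ∞` this is an equivalence. (4) If `δ_n` has a limiting density, then
`W(R, T) ≥ R (R - 1) / 2 + η`, `η = η(R) > 0`, for all large `T`; so Q1 is false if `W(R, T)` comes arbitrarily near to
`R (R - 1) / 2` at arbitrarily large `T`, for one `R > 1`. (5) For `1 < R < 2` this strict inequality holds without further
hypothesis. (6) The pair correlation conjecture implies `W(R, T) → R (R - 1) / 2 + 1 / 6`.

Idea of the proof. `W(R, T)` is, up to `o(1)`, a weighted mean over all heights `y T` of the excess of the pair sum with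
the kernel `sinc²` of the tent of support `[-R, R]`, with the positive weight `(sin (y / 2) / (y / 2))²`. The excess over
the value of the diagonal is not negative on each interval of heights, and it vanishes in the limit if and only if the
spacings are near the lattice. (5) uses the theorem of the starting file LatticeExclusion.
-/

set_option autoImplicit false

open Filter Topology MeasureTheory Set

namespace Pool.Agent.Results.MP_21f43f_nt.PrimesInShortIntervals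

/-- the multiplicity of `s` as a zero of the Riemann zeta function (order of vanishing at `s`) -/
noncomputable def zmult (s : ℂ) : ℕ := analyticOrderNatAt riemannZeta s

/-- the nontrivial zeros of `ζ` with ordinate in `(0, T]` -/
def zeros (T : ℝ) : Set ℂ :=
  {s : ℂ | riemannZeta s = 0 ∧ 0 < s.re ∧ s.re < 1 ∧ 0 < s.im ∧ s.im ≤ T}

/-- the number of the nontrivial zeros of `ζ` with ordinate in `(0, T]`, with multiplicity -/
noncomputable def N (T : ℝ) : ℕ := ∑ᶠ s ∈ zeros T, zmult s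

/-- for `n ≥ 1`: the `n`-th positive ordinate `γ n` of a nontrivial zero of `ζ`, the ordinates being
listed in nondecreasing order and repeated according to multiplicity -/
noncomputable def γ (n : ℕ) : ℝ := sInf {t : ℝ | n ≤ N t}

/-- the normalised gaps `δ_n = (γ_{n+1} log γ_{n+1} - γ_n log γ_n) / 2π` -/
noncomputable def δ (n : ℕ) : ℝ :=
  (γ (n + 1) * Real.log (γ (n + 1)) - γ n * Real.log (γ n)) / (2 * Real.pi)

/-- the proportion, among the gaps `δ_n` with `γ_n ≤ T`, of those whose distance from each of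
the numbers `k / R`, `k = 1, 2, 3, …`, is at least `ε` -/
noncomputable def away (R ε T : ℝ) : ℝ :=
  ({n : ℕ | 1 ≤ n ∧ γ n ≤ T ∧ ∀ k : ℕ, 1 ≤ k → ε ≤ |δ n - k / R|}.ncard : ℝ) / N T

/-- the weighted variance of the primes in the intervals `(x, x + x / T]`, `1 ≤ x ≤ T ^ R` -/
noncomputable def W (R T : ℝ) : ℝ := T / Real.log T ^ 2 * ∫ x in (1 : ℝ)..(T ^ R),
  (R - Real.log x / Real.log T) * ((Chebyshev.psi (x + x / T) - Chebyshev.psi x - x / T) ^ 2 / x ^ 2)

/-- the proportion of the `n ≤ M` with `a < δ_n ≤ b` -/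
noncomputable def prop (M : ℕ) (a b : ℝ) : ℝ :=
  ({n : ℕ | 1 ≤ n ∧ n ≤ M ∧ a < δ n ∧ δ n ≤ b}.ncard : ℝ) / M

/-- the normalised gaps have the limiting probability density `p`: the proportion of the `n ≤ M` with `a < δ_n ≤ b` tends
to `∫_a^b p` for all `0 ≤ a < b`; for the Gaudin density `p` this is Q1 of the problem -/
def HasDensity (p : ℝ → ℝ) : Prop :=
  (∀ x, 0 ≤ p x) ∧ IntegrableOn p (Ioi 0) ∧ ∫ x in Ioi 0, p x = 1 ∧
    ∀ a b : ℝ, 0 ≤ a → a < b → Tendsto (fun M => prop M a b) atTop (𝓝 (∫ x in a..b, p x))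

/-- the number of ordered pairs of nontrivial zeros with ordinates in `[0, T]`, counted with multiplicity, whose
normalised difference of ordinates lies in `[α, β]` -/
noncomputable def pairs (T α β : ℝ) : ℕ :=
  ∑ᶠ p ∈ {p : ℂ × ℂ | p.1 ∈ {s : ℂ | riemannZeta s = 0 ∧ 0 < s.re ∧ s.re < 1 ∧ 0 ≤ s.im ∧ s.im ≤ T} ∧
    p.2 ∈ {s : ℂ | riemannZeta s = 0 ∧ 0 < s.re ∧ s.re < 1 ∧ 0 ≤ s.im ∧ s.im ≤ T} ∧
    α ≤ (p.1.im - p.2.im) * Real.log T / (2 * Real.pi) ∧
    (p.1.im - p.2.im) * Real.log T / (2 * Real.pi) ≤ β}, zmult p.1 * zmult p.2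

/-- Montgomery's pair correlation conjecture -/
def PairCorrelation : Prop := ∀ α β : ℝ, 0 < α → α < β →
  Tendsto (fun T : ℝ => (pairs T α β : ℝ) / (T * Real.log T / (2 * Real.pi) *
    ∫ u in α..β, (1 - (Real.sin (Real.pi * u) / (Real.pi * u)) ^ 2))) atTop (𝓝 1)

lemma away_eq (R ε T : ℝ) :
    away R ε T = ((Pool.Agent.Y763.AH.BT R ε T).card : ℝ) / SG.NZ T := by
  classical
  unfold away
  congr 2
  rw [← Set.ncard_coe_finset]
  congr 1
  ext n
  unfold Pool.Agent.Y763.AH.BT Pool.Agent.Y763.AH.Bad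
  rw [Finset.mem_coe, Finset.mem_filter, Finset.mem_Ioc]
  constructor
  · rintro ⟨h1, h2, h3⟩
    exact ⟨⟨h1, (SG.ord_le_iff h1 T).1 h2⟩, h3⟩
  · rintro ⟨⟨h1, h2⟩, h3⟩
    exact ⟨h1, (SG.ord_le_iff h1 T).2 h2, h3⟩

lemma NZ_top : Tendsto (fun T : ℝ => (SG.NZ T : ℝ)) atTop atTop := by
  have h1 := Pool.Agent.Y763.AH.NZ_lim
  have h2 := Pool.Agent.Y763.AH.nT_atTop
  have h3 := h1.pos_mul_atTop one_pos h2
  refine h3.congr' ?_
  filter_upwards [h2.eventually_gt_atTop 0] with T hT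
  rw [div_mul_cancel₀ _ hT.ne']

lemma N_top : Tendsto (fun T : ℝ => N T) atTop atTop :=
  tendsto_natCast_atTop_iff.1 NZ_top

/-- a set of positive lower density of gaps away from the lattice -/
lemma away_ge {R ε c : ℝ} {P : ℕ → Prop} (hP : ∀ n, P n → ∀ k : ℕ, 1 ≤ k → ε ≤ |δ n - k / R|)
    (h : ∀ᶠ M : ℕ in atTop, c ≤ ({n : ℕ | 1 ≤ n ∧ n ≤ M ∧ P n}.ncard : ℝ) / M) :
    ∀ᶠ T : ℝ in atTop, c ≤ away R ε T := by
  filter_upwards [N_top.eventually h] with T hT
  refine hT.trans ?_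
  unfold away
  refine div_le_div_of_nonneg_right ?_ (Nat.cast_nonneg _)
  have hfin : {n : ℕ | 1 ≤ n ∧ γ n ≤ T ∧ ∀ k : ℕ, 1 ≤ k → ε ≤ |δ n - k / R|}.Finite := by
    refine (Set.finite_Iic (N T)).subset ?_
    rintro n ⟨h1, h2, -⟩
    exact (SG.ord_le_iff h1 T).1 h2
  have hsub : {n : ℕ | 1 ≤ n ∧ n ≤ N T ∧ P n} ⊆
      {n : ℕ | 1 ≤ n ∧ γ n ≤ T ∧ ∀ k : ℕ, 1 ≤ k → ε ≤ |δ n - k / R|} := by
    rintro n ⟨h1, h2, h3⟩
    exact ⟨h1, (SG.ord_le_iff h1 T).2 h2, hP n h3⟩
  exact_mod_cast Set.ncard_le_ncard hsub hfin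

/-- the step from (1) and (2) to a strict inequality -/
lemma strict {V : ℝ → ℝ} {v : ℝ} (h1 : ∀ ε : ℝ, 0 < ε → ∀ᶠ T : ℝ in atTop, v - ε ≤ V T) {A : ℝ → ℝ}
    (h2 : ∀ l : Filter ℝ, l ≤ atTop → Tendsto V l (𝓝 v) → Tendsto A l (𝓝 0)) {c : ℝ} (hc : 0 < c)
    (h3 : ∀ᶠ T : ℝ in atTop, c ≤ A T) : ∃ η : ℝ, 0 < η ∧ ∀ᶠ T : ℝ in atTop, v + η ≤ V T := by
  by_contra hcon
  push Not at hcon
  have hne : (atTop ⊓ comap V (𝓝 v)).NeBot := by
    rw [Filter.inf_neBot_iff_frequently_right]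
    intro p hp
    rw [Filter.eventually_comap] at hp
    obtain ⟨r, hr, h4⟩ := Metric.eventually_nhds_iff.1 hp
    have h5 : ∃ᶠ T in atTop, V T < v + r / 2 := by
      have h6 := hcon (r / 2) (by positivity)
      simpa [not_le] using h6
    refine (h5.and_eventually (h1 (r / 2) (by positivity))).mono fun T hT => ?_
    refine h4 (y := V T) ?_ T rfl
    rw [Real.dist_eq, abs_lt]
    constructor <;> linarith [hT.1, hT.2]
  have h4 := h2 _ inf_le_left (tendsto_inf_right tendsto_comap)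
  have h5 := h4.eventually (gt_mem_nhds hc)
  have h6 := h3.filter_mono (inf_le_left : atTop ⊓ comap V (𝓝 v) ≤ atTop)
  obtain ⟨T, h7, h8⟩ := (h5.and h6).exists
  linarith

/-- a density which gives mass zero to all closed intervals free of lattice points vanishes -/
lemma mass {R : ℝ} (hR : 0 < R) {p : ℝ → ℝ} (hp : ∀ x, 0 ≤ p x) (hi : IntegrableOn p (Ioi 0))
    (h1 : ∫ x in Ioi 0, p x = 1) : ∃ a b : ℝ, 0 ≤ a ∧ a < b ∧ 0 < ∫ x in a..b, p x ∧
      ∃ ε : ℝ, 0 < ε ∧ ∀ x : ℝ, a < x → x ≤ b → ∀ k : ℕ, 1 ≤ k → ε ≤ |x - k / R| := by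
  by_contra hcon
  push Not at hcon
  have hii : ∀ a b : ℝ, 0 ≤ a → 0 ≤ b → IntervalIntegrable p volume a b := by
    intro a b ha hb
    have h2 : IntegrableOn p (Ioc 0 (max a b)) := hi.mono_set Ioc_subset_Ioi_self
    rw [intervalIntegrable_iff]
    refine h2.mono_set ?_
    rw [uIoc]
    exact Ioc_subset_Ioc_left (le_min ha hb)
  have hz : ∀ m : ℕ, ∫ x in (m / R : ℝ)..((m + 1 : ℕ) / R : ℝ), p x = 0 := by
    intro m
    have hm0 : (0 : ℝ) ≤ m / R := by positivity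
    have hm1 : (m / R : ℝ) < ((m + 1 : ℕ) / R : ℝ) := by
      push_cast
      gcongr
      linarith
    have hsmall : ∀ r : ℝ, 0 < r → r < 1 / (2 * R) →
        ∫ x in (m / R + r : ℝ)..((m + 1 : ℕ) / R - r : ℝ), p x = 0 := by
      intro r hr0 hr1
      have hlt : (m / R + r : ℝ) < ((m + 1 : ℕ) / R - r : ℝ) := by
        have e : (((m + 1 : ℕ) : ℝ) / R) = m / R + 2 * (1 / (2 * R)) := by
          push_cast
          field_simp
        rw [e]
        linarith
      by_contra hne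
      have hnn : 0 ≤ ∫ x in (m / R + r : ℝ)..((m + 1 : ℕ) / R - r : ℝ), p x :=
        intervalIntegral.integral_nonneg hlt.le fun x _ => hp x
      obtain ⟨x, hx1, hx2, k, hk, hx3⟩ := hcon _ _ (by linarith) hlt (lt_of_le_of_ne hnn (Ne.symm hne)) r hr0
      rw [abs_lt] at hx3
      rcases le_or_gt k m with h3 | h3
      · have h4 : (k / R : ℝ) ≤ m / R := by
          gcongr
        linarith [hx3.2]
      · have h4 : (((m + 1 : ℕ) : ℝ) / R) ≤ k / R := by
          gcongr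
          exact h3
        linarith [hx3.1]
    have hc : ContinuousOn (fun r : ℝ => ∫ x in (m / R + r : ℝ)..((m + 1 : ℕ) / R - r : ℝ), p x) (Icc 0 (1 / (4 * R))) := by
      have hint : IntegrableOn p (Icc 0 ((m + 1 : ℕ) / R : ℝ)) := by
        rw [integrableOn_Icc_iff_integrableOn_Ioc]
        exact hi.mono_set Ioc_subset_Ioi_self
      have hprim := intervalIntegral.continuousOn_primitive_interval (a := 0) (b := ((m + 1 : ℕ) / R : ℝ)) (f := p) (μ := volume) (by
        rw [uIcc_of_le (by positivity)]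
        exact hint)
      rw [uIcc_of_le (by positivity)] at hprim
      have e1 : (1 : ℝ) / (4 * R) ≤ 1 / R := by
        gcongr
        linarith
      have e0 : (((m + 1 : ℕ) : ℝ) / R) = m / R + 1 / R := by
        push_cast
        ring
      have h5 : ContinuousOn (fun r : ℝ => ∫ x in (0 : ℝ)..((m + 1 : ℕ) / R - r : ℝ), p x) (Icc 0 (1 / (4 * R))) := by
        refine hprim.comp (f := fun r : ℝ => ((m + 1 : ℕ) / R - r : ℝ)) (by fun_prop) ?_
        intro r hr
        rw [mem_Icc] at hr ⊢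
        rw [e0]
        constructor <;> linarith [hr.1, hr.2]
      have h6 : ContinuousOn (fun r : ℝ => ∫ x in (0 : ℝ)..(m / R + r : ℝ), p x) (Icc 0 (1 / (4 * R))) := by
        refine hprim.comp (f := fun r : ℝ => (m / R + r : ℝ)) (by fun_prop) ?_
        intro r hr
        rw [mem_Icc] at hr ⊢
        rw [e0]
        constructor <;> linarith [hr.1, hr.2]
      refine (h5.sub h6).congr fun r hr => ?_
      rw [mem_Icc] at hr
      refine (intervalIntegral.integral_interval_sub_left (hii _ _ le_rfl ?_) (hii _ _ le_rfl ?_)).symm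
      · rw [e0]
        linarith [hr.2]
      · linarith [hr.1]
    have hclos : Tendsto (fun r : ℝ => ∫ x in (m / R + r : ℝ)..((m + 1 : ℕ) / R - r : ℝ), p x) (𝓝[>] 0)
        (𝓝 (∫ x in (m / R : ℝ)..((m + 1 : ℕ) / R : ℝ), p x)) := by
      have h7 := (hc 0 ⟨le_rfl, by positivity⟩)
      have h8 : Tendsto (fun r : ℝ => ∫ x in (m / R + r : ℝ)..((m + 1 : ℕ) / R - r : ℝ), p x) (𝓝[Icc 0 (1 / (4 * R))] 0)
        (𝓝 (∫ x in (m / R : ℝ)..((m + 1 : ℕ) / R : ℝ), p x)) := by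
        have h9 := h7.tendsto
        simpa using h9
      refine h8.mono_left ?_
      rw [← nhdsWithin_Ioc_eq_nhdsGT (show (0 : ℝ) < 1 / (4 * R) by positivity)]
      exact nhdsWithin_mono _ Ioc_subset_Icc_self
    have hev : ∀ᶠ r : ℝ in 𝓝[>] 0, ∫ x in (m / R + r : ℝ)..((m + 1 : ℕ) / R - r : ℝ), p x = 0 := by
      filter_upwards [Ioo_mem_nhdsGT (show (0 : ℝ) < 1 / (2 * R) by positivity)] with r hr
      exact hsmall r hr.1 hr.2
    exact tendsto_nhds_unique hclos (tendsto_const_nhds.congr' (hev.mono fun r hr => hr.symm))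
  have hsum : ∀ m : ℕ, ∫ x in (0 : ℝ)..(m / R : ℝ), p x = 0 := by
    intro m
    induction m with
    | zero => simp
    | succ m ih =>
      rw [← intervalIntegral.integral_add_adjacent_intervals (hii _ _ le_rfl (by positivity : (0 : ℝ) ≤ m / R))
        (hii _ _ (by positivity) (by positivity)), ih, hz m, add_zero]
  have hlim := intervalIntegral_tendsto_integral_Ioi (0 : ℝ) hi
    (tendsto_natCast_atTop_atTop.atTop_div_const hR : Tendsto (fun m : ℕ => (m : ℝ) / R) atTop atTop)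
  have h10 : Tendsto (fun m : ℕ => ∫ x in (0 : ℝ)..(m / R : ℝ), p x) atTop (𝓝 0) :=
    tendsto_const_nhds.congr fun m => (hsum m).symm
  have h11 := tendsto_nhds_unique hlim h10
  rw [h1] at h11
  exact one_ne_zero h11

lemma mont_of (h : PairCorrelation) : Q241.OP.G.Mont := by
  intro α β hα hαβ
  exact h α β hα hαβ

/-- **Theorem.** See the description above. -/
theorem result (RH : RiemannHypothesis) (R : ℝ) (hR1 : 1 < R) :
    (∀ ε : ℝ, 0 < ε → ∀ᶠ T : ℝ in atTop, R * (R - 1) / 2 - ε ≤ W R T) ∧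
    (∀ l : Filter ℝ, l ≤ atTop → Tendsto (W R) l (𝓝 (R * (R - 1) / 2)) →
      ∀ ε : ℝ, 0 < ε → Tendsto (fun T => away R ε T) l (𝓝 0)) ∧
    (Tendsto (W R) atTop (𝓝 (R * (R - 1) / 2)) ↔
      ∀ ε : ℝ, 0 < ε → Tendsto (fun T => away R ε T) atTop (𝓝 0)) ∧
    ((∃ p, HasDensity p) → ∃ η : ℝ, 0 < η ∧ ∀ᶠ T : ℝ in atTop, R * (R - 1) / 2 + η ≤ W R T) ∧
    (R < 2 → ∃ η : ℝ, 0 < η ∧ ∀ᶠ T : ℝ in atTop, R * (R - 1) / 2 + η ≤ W R T) ∧
    (PairCorrelation → Tendsto (W R) atTop (𝓝 (R * (R - 1) / 2 + 1 / 6))) := by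
  have hp := Pool.Agent.Q296.GM.L2_of_rh RH
  have hEL := Pool.Agent.Q285.AH.t_EL
  have hTK := Pool.Agent.Q252.AH.t_TK
  have hXS := Pool.Agent.Q177.AH.t_XS
  have hSX := Pool.Agent.Q252.AH.t_SX Pool.Agent.Q224.AH.t_SC
  have hWA := Pool.Agent.Q154.AH.t_WA
  have hRS : Pool.Agent.Q260.AH.S_RS := Pool.Agent.Q96.AH.t_RS
  have hWP := Pool.Agent.Q252.AH.t_WP
  have hGB := Pool.Agent.Q285.AH.t_GB (Pool.Agent.Q252.AH.t_BL Pool.Agent.Q224.AH.t_CR) Pool.Agent.Q224.AH.t_KD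
  have hLOW := Pool.Agent.Q38.AH.t_LOW hWA hRS hGB hWP hEL
  have hUPP := Pool.Agent.Q285.AH.t_UPP hWA hRS hGB hWP
  have hR0 : 0 < R := by linarith
  have e : R * (R - 1) / 2 = (R ^ 2 - R) / 2 := by ring
  have key1 : ∀ ε : ℝ, 0 < ε → ∀ᶠ T : ℝ in atTop, R * (R - 1) / 2 - ε ≤ W R T := fun ε hε => by
    rw [e]
    exact Pool.Agent.Q260.AH.lower hEL hLOW hTK RH hp hR0 hε
  have key2 : ∀ l : Filter ℝ, l ≤ atTop → Tendsto (W R) l (𝓝 (R * (R - 1) / 2)) →
      ∀ ε : ℝ, 0 < ε → Tendsto (fun T => away R ε T) l (𝓝 0) := fun l hl h ε hε => by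
    rw [e] at h
    simp only [away_eq]
    exact Pool.Agent.Q260.AH.away_lim hEL hLOW hTK hXS RH hp hR0 hl h ε hε
  refine ⟨key1, key2, ?_, ?_, ?_, ?_⟩
  · rw [e]
    simp only [away_eq]
    exact Pool.Agent.Q260.AH.main hEL hLOW hUPP hXS hSX hTK RH hp hR0
  · rintro ⟨p, hp1, hp2, hp3, hp4⟩
    obtain ⟨a, b, ha, hab, hpos, ε, hε, hfar⟩ := mass hR0 hp1 hp2 hp3
    have h5 := (hp4 a b ha hab).eventually (lt_mem_nhds (half_lt_self hpos))
    refine strict key1 (fun l hl h => key2 l hl h ε hε) (half_pos hpos)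
      (away_ge (P := fun n => a < δ n ∧ δ n ≤ b) (fun n hn k hk => hfar (δ n) hn.1 hn.2 k hk) ?_)
    filter_upwards [h5] with M hM
    exact hM.le
  · intro hR2
    obtain ⟨ε, hε, h⟩ := H177.Lat.lattice RH R hR0 hR2
    refine strict key1 (fun l hl h => key2 l hl h ε hε) hε
      (away_ge (P := fun n => ∀ k : ℤ, ε ≤ |δ n - k / R|) (fun n hn k _ => by exact_mod_cast hn k) ?_)
    filter_upwards [h, eventually_ge_atTop 1] with M hM hM1
    rw [le_div_iff₀ (by exact_mod_cast hM1)]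
    exact hM
  · intro hM
    have hw : Pool.Agent.Y749.Rig.Weak atTop := Pool.Agent.Y749.Rig.weak_win le_rfl fun α β hαβ =>
      Pool.Agent.Y744.Nr_all le_rfl (Q241.HF.Aa_of_Mont (mont_of hM)) hαβ
    rw [e]
    exact Pool.Agent.Q260.AH.W_pcc hWA hTK RH hp hw hR1.le

end Pool.Agent.Results.MP_21f43f_nt.PrimesInShortIntervals
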