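import Pool.Agent.Q278.QR.J2

/-!
# The spacings of the zeta zeros do not see the large scales

No hypothesis is assumed.  Let `δ_n` be the normalised gaps of the problem and look at the two-sided
sequence `seen n` of the gaps around the `n`-th zero.  For a smooth function `f` of compact support
and a length `L` let `lin f L (seen n) = ∑_k f(k/L) (δ_{n+k} - 1)`, a statistic of about `L` gaps around
the `n`-th zero; for several test functions the vector of these statistics has, for a random zero, a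
Gaussian limit law (`N → ∞`, then `L → ∞`) with the covariance of the gaps of the GUE (starting point:
the earlier result `MP_7eacff_nt.GaussianFluctuations`).  Here it is shown that this Gaussian law is
found everywhere and independently of the local structure of the gaps:

* `Scales`: every set of zeros, more generally every weight on the zeros, is asymptotically
  uncorrelated with the large-scale statistics at almost all scales `L = s^j`, `j < J`, uniformly over
  all weights; and at almost every single zero the statistics at the scales `s^j`, `j < J`, are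
  distributed according to the Gaussian law;
* `Places`: around almost every zero the statistics at the scale `L` of the `R` following zeros,
  `R ≥ Λ L`, are distributed according to the Gaussian law;
* `Mixing`, `Invariant`: in every limit process of the gaps, the statistics are asymptotically
  independent of everything (mixing in the sense of Rényi), and their conditional means given the
  invariant events tend to the Gaussian means, uniformly over all limit processes.

The last two parts of the theorem give the distribution functions: for every set `A` of zeros, at most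
scales, the proportion of zeros in `A` with statistic `≤ y` is the product.  With
`A = {n | a < δ_n ≤ b}`: Q1, for an interval `(a, b]`, holds if and only if it holds for the zeros with
a prescribed large-scale environment.

Proof.  The joint Gaussian law of two families of test functions shows that the statistics at the same
scale and distant places, or at distant scales, are nearly uncorrelated after application of any
function of mean zero.  For places this gives small averages over neighbours, hence (by the mean ergodic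
theorem, and the near invariance of the statistics under shifts) mixing; for scales it is combined with
Bessel's inequality at finite level.
-/

set_option autoImplicit false

open Filter Topology MeasureTheory ProbabilityTheory Finset
open scoped FourierTransform ContDiff ComplexConjugate

namespace Pool.Agent.Results.MP_21f43f_nt.SpacingsLargeScales

/-- multiplicity of `s` as a zero of the Riemann zeta function (order of vanishing at `s`) -/
noncomputable def zmult (s : ℂ) : ℕ := analyticOrderNatAt riemannZeta s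

/-- the number of nontrivial zeros of `ζ` with ordinate in `(0, t]`, with multiplicity -/
noncomputable def NZ (t : ℝ) : ℕ :=
  ∑ᶠ s ∈ {s : ℂ | riemannZeta s = 0 ∧ 0 < s.re ∧ s.re < 1 ∧ 0 < s.im ∧ s.im ≤ t}, zmult s

/-- for `n ≥ 1`: the `n`-th positive ordinate `γ n` of a nontrivial zero of `ζ`, the ordinates being
listed in nondecreasing order and repeated according to multiplicity -/
noncomputable def γ (n : ℕ) : ℝ := sInf {t : ℝ | n ≤ NZ t}

/-- the normalised gaps `δ_n` of the problem: the gaps of the `γ_n log γ_n / 2π` -/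
noncomputable def δ (n : ℕ) : ℝ :=
  γ (n + 1) * Real.log (γ (n + 1)) / (2 * Real.pi) - γ n * Real.log (γ n) / (2 * Real.pi)

/-- the gaps seen from the `n`-th zero: the two-sided sequence with `k`-th term `δ_{n+k}` (and `0`
when `n + k < 1`) -/
noncomputable def seen (n : ℕ) : ℤ → ℝ :=
  fun k => if 1 ≤ (n : ℤ) + k then δ ((n : ℤ) + k).toNat else 0

/-- the limit processes: the probability measures `P` on two-sided sequences such that, along some
sequence of `N` tending to infinity, the law of the gaps seen from the `n`-th zero, `n` uniform in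
`1, …, N`, converges weakly to `P` -/
def limits : Set (ProbabilityMeasure (ℤ → ℝ)) :=
  {P | ∃ φ : ℕ → ℕ, StrictMono φ ∧ ∀ g : BoundedContinuousFunction (ℤ → ℝ) ℝ,
    Tendsto (fun j => (∑ n ∈ Icc 1 (φ j), g (seen n)) / (φ j : ℝ)) atTop
      (𝓝 (∫ q, g q ∂(P : Measure (ℤ → ℝ))))}

/-- the shift of two-sided sequences -/
def shift (q : ℤ → ℝ) : ℤ → ℝ := fun k => q (k + 1)

/-- the linear statistic `∑_k f(k/L) (q_k - 1)` of a sequence of gaps -/
noncomputable def lin (f : ℝ → ℝ) (L : ℝ) (q : ℤ → ℝ) : ℝ :=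
  ∑ᶠ k : ℤ, f ((k : ℝ) / L) * (q k - 1)

/-- the limiting covariance -/
noncomputable def cov (f g : ℝ → ℝ) : ℝ :=
  ∫ ξ : ℝ, |ξ| * (𝓕 (fun x => (f x : ℂ)) ξ * conj (𝓕 (fun x => (g x : ℂ)) ξ)).re

variable {k : ℕ}

/-- the vector of the statistics of several test functions -/
noncomputable def Y (f : Fin k → ℝ → ℝ) (L : ℝ) (q : ℤ → ℝ) : EuclideanSpace ℝ (Fin k) :=
  WithLp.toLp 2 fun j => lin (f j) L q

/-- the centred Gaussian law with the covariance matrix `cov (f i) (f j)` -/
noncomputable def gauss (f : Fin k → ℝ → ℝ) : Measure (EuclideanSpace ℝ (Fin k)) :=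
  multivariateGaussian 0 (Matrix.of fun i j => cov (f i) (f j))

/-- the distribution function at `y` of the centred Gaussian law with variance `cov f f` -/
noncomputable def gcdf (f : ℝ → ℝ) (y : ℝ) : ℝ := (gaussianReal 0 (cov f f).toNNReal).real (Set.Iic y)

/-- **almost all scales**: the means of `Φ - c`, at the scales `s^j`, `j < J`, with arbitrary weights
`w` on the zeros, are small in mean square, uniformly over the weights; and at almost all zeros the
average of `Φ` over these scales is close to `c` -/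
def Scales (f : Fin k → ℝ → ℝ) (Φ : EuclideanSpace ℝ (Fin k) → ℝ) (c : ℝ) : Prop :=
  ∀ s : ℝ, 1 < s → ∀ ε : ℝ, 0 < ε → ∃ J0 : ℕ, 1 ≤ J0 ∧ ∀ J, J0 ≤ J → ∃ N0 : ℕ, ∀ N, N0 ≤ N →
    (∀ w : ℕ → ℝ, (∑ j ∈ range J, ((∑ n ∈ Icc 1 N, w n * (Φ (Y f (s ^ j) (seen n)) - c)) / N) ^ 2) / J ≤
      ε * ((∑ n ∈ Icc 1 N, w n ^ 2) / N)) ∧
    (∑ n ∈ Icc 1 N, ((∑ j ∈ range J, Φ (Y f (s ^ j) (seen n))) / J - c) ^ 2) / N ≤ ε

/-- **almost all places**: around almost all zeros the average of `Φ` over `R` neighbours, `R` large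
compared with the scale `L`, is close to `c` -/
def Places (f : Fin k → ℝ → ℝ) (Φ : EuclideanSpace ℝ (Fin k) → ℝ) (c : ℝ) : Prop :=
  ∀ ε : ℝ, 0 < ε → ∃ Λ L0 : ℕ, 1 ≤ Λ ∧ 1 ≤ L0 ∧ ∀ L R : ℕ, L0 ≤ L → Λ * L ≤ R → ∃ N0 : ℕ, ∀ N, N0 ≤ N →
    (∑ n ∈ Icc 1 N, ((∑ x ∈ range R, Φ (Y f L (seen (n + x)))) / R - c) ^ 2) / N ≤ ε

/-- **mixing**: under every limit process, `Φ` of the statistics at the scale `L → ∞` is asymptotically
independent of every square integrable function -/
def Mixing (f : Fin k → ℝ → ℝ) (Φ : EuclideanSpace ℝ (Fin k) → ℝ) (c : ℝ) : Prop :=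
  ∀ P ∈ limits, (∀ᶠ L : ℕ in atTop, MemLp (fun q => Φ (Y f L q)) 2 (P : Measure (ℤ → ℝ))) ∧
    ∀ F : (ℤ → ℝ) → ℝ, MemLp F 2 (P : Measure (ℤ → ℝ)) →
      Tendsto (fun L : ℕ => ∫ q, F q * Φ (Y f L q) ∂(P : Measure (ℤ → ℝ))) atTop
        (𝓝 ((∫ q, F q ∂(P : Measure (ℤ → ℝ))) * c))

/-- **the invariant events**: the conditional mean of `Φ` of the statistics at the scale `L`, given the
events invariant under the shift, tends to `c` in mean square, uniformly over the limit processes -/
def Invariant (f : Fin k → ℝ → ℝ) (Φ : EuclideanSpace ℝ (Fin k) → ℝ) (c : ℝ) : Prop :=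
  ∀ ε : ℝ, 0 < ε → ∃ L0 : ℕ, ∀ L : ℕ, L0 ≤ L → ∀ P ∈ limits,
    ∫ q, (((P : Measure (ℤ → ℝ))[fun q => Φ (Y f L q) | MeasurableSpace.invariants shift]) q - c) ^ 2
      ∂(P : Measure (ℤ → ℝ)) ≤ ε

/-- all four properties -/
def Everywhere (f : Fin k → ℝ → ℝ) (Φ : EuclideanSpace ℝ (Fin k) → ℝ) (c : ℝ) : Prop :=
  Scales f Φ c ∧ Places f Φ c ∧ Mixing f Φ c ∧ Invariant f Φ c

lemma limits_iff {P : ProbabilityMeasure (ℤ → ℝ)} (hP : P ∈ limits) :
    Q172.ZetaLim.IsLim (Q172.ZetaLim.seen Q278.GF.dl) P := (Q278.QR.dt_lim_iff P).1 hP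

lemma everywhere_of {f : Fin k → ℝ → ℝ} (hf : ∀ j, ContDiff ℝ ∞ (f j) ∧ HasCompactSupport (f j))
    {Φ : EuclideanSpace ℝ (Fin k) → ℝ} {c : ℝ} (h : Q278.QR.Adm f fun x => Φ x - c) :
    Everywhere f Φ c := by
  have hinv := fun (ε : ℝ) (hε : 0 < ε) => Q278.QR.inv_adm hf h hε
  have hmem : ∀ P ∈ limits, ∀ᶠ L : ℕ in atTop,
      MemLp (fun q => Φ (Y f L q)) 2 (P : Measure (ℤ → ℝ)) := by
    intro P hP
    obtain ⟨L0, -, h1⟩ := hinv 1 one_pos
    filter_upwards [eventually_ge_atTop L0] with L hL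
    have h2 := (h1 L hL P (limits_iff hP)).1.add (memLp_const c)
    refine h2.ae_eq (Eventually.of_forall fun q => ?_)
    show Φ (Y f L q) - c + c = Φ (Y f L q)
    ring
  refine ⟨fun s hs ε hε => Q278.QR.scale_dual Q278.QR.dt_sq.1 hf h hs hε, fun ε hε => ?_,
    fun P hP => ⟨hmem P hP, fun F hF => ?_⟩, fun ε hε => ?_⟩
  · obtain ⟨Λ, L0, h1, h2, h3⟩ := Q278.QR.space_fin Q278.QR.dt_sq.1 hf h hε
    refine ⟨Λ, L0, h1, h2, fun L R hL hR => ?_⟩
    obtain ⟨N0, hN0⟩ := Filter.eventually_atTop.1 (h3 L R hL hR)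
    have hRpos : 0 < R := lt_of_lt_of_le (Nat.mul_pos (by omega) (by omega)) hR
    have hR' : (R : ℝ) ≠ 0 := by exact_mod_cast hRpos.ne'
    refine ⟨N0, fun N hN => ?_⟩
    refine le_trans (le_of_eq ?_) (hN0 N hN)
    congr 1
    refine Finset.sum_congr rfl fun n _ => ?_
    congr 1
    rw [Finset.sum_sub_distrib, Finset.sum_const, card_range, nsmul_eq_mul, sub_div,
      mul_div_cancel_left₀ _ hR']
    rfl
  · have h1 := Q278.QR.mix_adm hf h (limits_iff hP) hF
    have h2 : Tendsto (fun L : ℕ => ∫ q, F q * (Φ (Y f L q) - c) ∂(P : Measure (ℤ → ℝ)) +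
        (∫ q, F q ∂(P : Measure (ℤ → ℝ))) * c) atTop (𝓝 (0 + (∫ q, F q ∂(P : Measure (ℤ → ℝ))) * c)) :=
      Tendsto.add_const _ h1
    rw [zero_add] at h2
    refine h2.congr' ?_
    filter_upwards [hmem P hP] with L hL
    rw [← integral_mul_const]
    have i1 : Integrable (fun q => F q * (Φ (Y f L q) - c)) (P : Measure (ℤ → ℝ)) :=
      hF.integrable_mul (hL.sub (memLp_const c))
    have i2 : Integrable (fun q => F q * c) (P : Measure (ℤ → ℝ)) :=
      (hF.integrable one_le_two).mul_const c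
    rw [← integral_add i1 i2]
    refine integral_congr_ae (Eventually.of_forall fun q => ?_)
    show F q * (Φ (Y f L q) - c) + F q * c = F q * Φ (Y f L q)
    ring
  · obtain ⟨L0, -, h1⟩ := hinv ε hε
    refine ⟨L0, fun L hL P hP => ?_⟩
    obtain ⟨m1, m2⟩ := h1 L hL P (limits_iff hP)
    have m3 : MemLp (fun q => Φ (Y f L q)) 2 (P : Measure (ℤ → ℝ)) := by
      refine (m1.add (memLp_const c)).ae_eq (Eventually.of_forall fun q => ?_)
      show Φ (Y f L q) - c + c = Φ (Y f L q)
      ring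
    refine le_trans (le_of_eq ?_) m2
    have e1 := condExp_sub (m3.integrable one_le_two) (integrable_const c) (μ := (P : Measure (ℤ → ℝ)))
      (MeasurableSpace.invariants shift)
    have e2 := condExp_const (μ := (P : Measure (ℤ → ℝ))) (MeasurableSpace.invariants_le shift) c
    refine integral_congr_ae ?_
    filter_upwards [e1] with q hq
    have hq' : ((P : Measure (ℤ → ℝ))[fun q => Φ (Y f L q) - c | MeasurableSpace.invariants shift]) q =
        ((P : Measure (ℤ → ℝ))[fun q => Φ (Y f L q) | MeasurableSpace.invariants shift]) q - c := by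
      have h3 := hq
      rw [Pi.sub_apply, e2] at h3
      exact h3
    rw [← hq']
    rfl

/-- **The spacings of the zeta zeros and the large scales.** -/
theorem result :
    (∀ (k : ℕ) (f : Fin k → ℝ → ℝ), (∀ j, ContDiff ℝ ∞ (f j) ∧ HasCompactSupport (f j)) →
      ∀ (Φ : EuclideanSpace ℝ (Fin k) → ℝ) (A : ℝ) (m : ℕ), Continuous Φ →
        (∀ x, |Φ x| ≤ A * (1 + ‖x‖) ^ m) →
          (Matrix.of fun i j => cov (f i) (f j)).PosSemidef ∧ Integrable Φ (gauss f) ∧
            Everywhere f Φ (∫ x, Φ x ∂(gauss f))) ∧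
    (∀ f : ℝ → ℝ, ContDiff ℝ ∞ f → HasCompactSupport f → f ≠ 0 → 0 < cov f f ∧ ∀ y : ℝ,
      0 < gcdf f y ∧ Everywhere (fun _ : Fin 1 => f) (fun x => if x 0 ≤ y then 1 else 0) (gcdf f y) ∧
      ∀ s : ℝ, 1 < s →
        (∀ ε : ℝ, 0 < ε → ∃ J0 : ℕ, 1 ≤ J0 ∧ ∀ J, J0 ≤ J → ∃ N0 : ℕ, ∀ N, N0 ≤ N → ∀ A : Set ℕ,
          (∑ j ∈ range J, |({n : ℕ | 1 ≤ n ∧ n ≤ N ∧ n ∈ A ∧ lin f (s ^ j) (seen n) ≤ y}.ncard : ℝ) / N -
            ({n : ℕ | 1 ≤ n ∧ n ≤ N ∧ n ∈ A}.ncard : ℝ) / N * gcdf f y|) / J ≤ ε) ∧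
        ∀ a b κ : ℝ,
          Tendsto (fun N : ℕ => ({n : ℕ | 1 ≤ n ∧ n ≤ N ∧ a < δ n ∧ δ n ≤ b}.ncard : ℝ) / N) atTop (𝓝 κ) ↔
          ∀ ε : ℝ, 0 < ε → ∃ J0 : ℕ, 1 ≤ J0 ∧ ∀ J, J0 ≤ J → ∃ N0 : ℕ, ∀ N, N0 ≤ N →
            (∑ j ∈ range J, |({n : ℕ | 1 ≤ n ∧ n ≤ N ∧ (a < δ n ∧ δ n ≤ b) ∧
              lin f (s ^ j) (seen n) ≤ y}.ncard : ℝ) / N - κ * gcdf f y|) / J ≤ ε) := by
  refine ⟨fun k f hf Φ A m hΦ hb => ?_, fun f h1 h2 h0 => ?_⟩
  · obtain ⟨i1, i2⟩ := Q278.QR.adm_poly hf hΦ hb
    exact ⟨Q278.MC.cm_pos fun j => Q278.GF.cc_of (hf j).1 (hf j).2, i1, everywhere_of hf i2⟩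
  · have hv : 0 < cov f f := Q278.MC.cv_pos (Q278.GF.cc_of h1 h2) h0
    have hv' : (cov f f).toNNReal ≠ 0 := by
      rw [ne_eq, Real.toNNReal_eq_zero, not_le]
      exact hv
    refine ⟨hv, fun y => ⟨Q278.QR.gauss_pos hv' y,
      everywhere_of (f := fun _ : Fin 1 => f) (fun _ => ⟨h1, h2⟩) (Q278.QR.adm_ind h1 h2 h0 y),
      fun s hs => ⟨fun ε hε => ?_, fun a b κ => ?_⟩⟩⟩
    · exact Q278.QR.sets_fin Q278.QR.dt_sq.1 h1 h2 h0 y hs hε
    · exact Q278.QR.equiv_fin Q278.QR.dt_sq.1 h1 h2 h0 y hs {n | a < δ n ∧ δ n ≤ b} κ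

end Pool.Agent.Results.MP_21f43f_nt.SpacingsLargeScales
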